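import Pool.Agent.Run7.h104.Uni2

/-! # Brezis-Nirenberg problem with absolute constants in solids with circular sections

There are absolute constants `C`, `κ > 0` such that, for every strictly star-shaped domain whose
sections orthogonal to some axis are discs centred on that axis and which contains a ball of
radius `r`, and for every `lam ≥ C / r ^ 2`, there are at least `κ r √lam` values `t` for each of
which the Brezis-Nirenberg problem with parameter `lam` has infinitely many solutions with
`∫ u ^ 6 = t`. -/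

set_option autoImplicit false

open MeasureTheory

namespace Pool.Agent.Results.MP_d5b3be_an.CircularSections

theorem result :
    ∃ C κ : ℝ, 0 < C ∧ 0 < κ ∧
      ∀ (c : EuclideanSpace ℝ (Fin 3)) (ρ : EuclideanSpace ℝ (Fin 3) → ℝ),
      ContDiff ℝ ((⊤ : ℕ∞) : WithTop ℕ∞) ρ → (∀ x, 0 < ρ x) →
      ∀ Ω : Set (EuclideanSpace ℝ (Fin 3)),
        Ω = {x | ‖x - c‖ < ρ (‖x - c‖⁻¹ • (x - c))} →
        ∀ b e : EuclideanSpace ℝ (Fin 3), ‖e‖ = 1 →
          (∀ x y : EuclideanSpace ℝ (Fin 3), inner ℝ (x - b) e = inner ℝ (y - b) e →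
            ‖y - b‖ ≤ ‖x - b‖ → x ∈ Ω → y ∈ Ω) →
          ∀ (p : EuclideanSpace ℝ (Fin 3)) (r : ℝ), 0 < r → Metric.ball p r ⊆ Ω →
          ∀ lam : ℝ, C / r ^ 2 ≤ lam →
            ∃ T : Finset ℝ, κ * (r * Real.sqrt lam) ≤ T.card ∧ ∀ t ∈ T,
              Set.Infinite
                {u : EuclideanSpace ℝ (Fin 3) → ℝ |
                  (ContDiffOn ℝ 2 u Ω ∧ ContinuousOn u (closure Ω) ∧
                  (∀ x, x ∉ Ω → u x = 0) ∧
                  ∀ x ∈ Ω,
                    (∑ i : Fin 3, iteratedFDeriv ℝ 2 u x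
                        ![EuclideanSpace.single i (1 : ℝ), EuclideanSpace.single i (1 : ℝ)])
                      + u x ^ 5 + lam * u x = 0) ∧
                  ∫ x, u x ^ 6 = t} := by
  obtain ⟨C, κ, hC, hκ, h⟩ := Run7.h104.universal
  refine ⟨C, κ, hC, hκ, ?_⟩
  rintro c ρ hρ hpos Ω rfl b e he hinv p r hr hpr lam hlam
  exact h c ρ hρ hpos b e he hinv p r hr hpr lam hlam

end Pool.Agent.Results.MP_d5b3be_an.CircularSections
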