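import Pool.Agent.Run7.h104.Fla3

/-! # Brezis-Nirenberg problem in flat solids, above the threshold

For all `ε > 0` and `n` there is `δ > 0` such that, for every strictly star-shaped domain whose
sections orthogonal to an axis are discs centred on that axis, which lies in the slab
`|⟪x - b, e⟫| < h` and contains the part of the slab `|⟪x - b, e⟫| < (1 - δ) h` at distance less
than `h / δ` from `b`, and for every `lam0` satisfying the Brezis-Nirenberg condition on `Ω` (the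
quotient of `∫ |∇u|² - lam0 ∫ u²` by the `L⁶` norm takes values below a Sobolev constant), the
Brezis-Nirenberg problem with parameter `lam` has, for every `lam ≥ lam0 + ε / h ^ 2`, infinitely
many solutions on each of at least `n` levels of `∫ u ^ 6`. -/

set_option autoImplicit false

open MeasureTheory

namespace Pool.Agent.Results.MP_d5b3be_an.FlatSolids

/-- `u` solves the Brezis-Nirenberg problem in `Ω` with parameter `lam` (the conditions of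
`S06297`) -/
def Solves (Ω : Set (EuclideanSpace ℝ (Fin 3))) (lam : ℝ)
    (u : EuclideanSpace ℝ (Fin 3) → ℝ) : Prop :=
  ContDiffOn ℝ 2 u Ω ∧ ContinuousOn u (closure Ω) ∧ (∀ x, x ∉ Ω → u x = 0) ∧
    ∀ x ∈ Ω, (∑ i : Fin 3, iteratedFDeriv ℝ 2 u x
      ![EuclideanSpace.single i (1 : ℝ), EuclideanSpace.single i (1 : ℝ)])
        + u x ^ 5 + lam * u x = 0

/-- `φ` is a test function: smooth with compact support -/
def Test (φ : EuclideanSpace ℝ (Fin 3) → ℝ) : Prop :=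
  ContDiff ℝ ((⊤ : ℕ∞) : WithTop ℕ∞) φ ∧ HasCompactSupport φ

/-- the Brezis-Nirenberg condition: the infimum of
`(∫ |∇φ|² - lam0 ∫ φ²) / (∫ φ⁶) ^ (1/3)` over the test functions in `Ω` is smaller than the best
Sobolev constant -/
def Below (Ω : Set (EuclideanSpace ℝ (Fin 3))) (lam0 : ℝ) : Prop :=
  ∃ s : ℝ, (∀ ψ, Test ψ → s ^ 3 * ∫ x, ψ x ^ 6 ≤ (∫ x, ‖gradient ψ x‖ ^ 2) ^ 3) ∧
    ∃ φ, Test φ ∧ tsupport φ ⊆ Ω ∧
      ((∫ x, ‖gradient φ x‖ ^ 2) - lam0 * ∫ x, φ x ^ 2) ^ 3 < s ^ 3 * ∫ x, φ x ^ 6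

theorem result :
    ∀ ε : ℝ, 0 < ε → ∀ n : ℕ, ∃ δ : ℝ, 0 < δ ∧ δ < 1 ∧
      ∀ (c : EuclideanSpace ℝ (Fin 3)) (ρ : EuclideanSpace ℝ (Fin 3) → ℝ),
      ContDiff ℝ ((⊤ : ℕ∞) : WithTop ℕ∞) ρ → (∀ x, 0 < ρ x) →
      ∀ Ω : Set (EuclideanSpace ℝ (Fin 3)),
        Ω = {x | ‖x - c‖ < ρ (‖x - c‖⁻¹ • (x - c))} →
        ∀ (b e : EuclideanSpace ℝ (Fin 3)) (h : ℝ), ‖e‖ = 1 → 0 < h →
          (∀ x y : EuclideanSpace ℝ (Fin 3), inner ℝ (x - b) e = inner ℝ (y - b) e →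
            ‖y - b‖ ≤ ‖x - b‖ → x ∈ Ω → y ∈ Ω) →
          (∀ x ∈ Ω, |inner ℝ (x - b) e| < h) →
          (∀ x : EuclideanSpace ℝ (Fin 3),
            |inner ℝ (x - b) e| < (1 - δ) * h → ‖x - b‖ < h / δ → x ∈ Ω) →
          ∀ lam0 : ℝ, Below Ω lam0 → ∀ lam : ℝ, lam0 + ε / h ^ 2 ≤ lam →
            ∃ T : Finset ℝ, n ≤ T.card ∧ ∀ t ∈ T,
              Set.Infinite {u | Solves Ω lam u ∧ ∫ x, u x ^ 6 = t} := by
  intro ε hε n
  obtain ⟨δ, hδ0, hδ1, H⟩ := Run7.h104.flat hε n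
  refine ⟨δ, hδ0, hδ1, ?_⟩
  rintro c ρ hρ hpos Ω rfl b e h he hh hinv hup hlow lam0 ⟨s, hs, φ, hφ, hφΩ, hlt⟩ lam hlam
  exact H c ρ hρ hpos b e h he hh hinv hup hlow lam0
    ⟨s, φ, fun ψ h1 h2 => hs ψ ⟨h1, h2⟩, hφ.1, hφ.2, hφΩ, hlt⟩ lam hlam

end Pool.Agent.Results.MP_d5b3be_an.FlatSolids
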