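import Pool.Agent.Run7.h104.Dom2

/-! # Brezis-Nirenberg problem in strictly star-shaped solids of revolution in dimension three

For every smooth strictly star-shaped solid of revolution there are `κ > 0` and `Λ` such that for
every `lam ≥ Λ` there are at least `κ √lam` values `t` for each of which the Brezis-Nirenberg
problem with parameter `lam` has infinitely many solutions with `∫ u ^ 6 = t`. -/

set_option autoImplicit false

open MeasureTheory

namespace Pool.Agent.Results.MP_d5b3be_an.Revolution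

theorem result :
    ∀ (c : EuclideanSpace ℝ (Fin 3)) (ρ : EuclideanSpace ℝ (Fin 3) → ℝ),
      ContDiff ℝ ((⊤ : ℕ∞) : WithTop ℕ∞) ρ → (∀ x, 0 < ρ x) →
      ∀ Ω : Set (EuclideanSpace ℝ (Fin 3)),
        Ω = {x | ‖x - c‖ < ρ (‖x - c‖⁻¹ • (x - c))} →
        ∀ b e : EuclideanSpace ℝ (Fin 3), ‖e‖ = 1 →
          (∀ x y : EuclideanSpace ℝ (Fin 3), inner ℝ (x - b) e = inner ℝ (y - b) e →
            ‖x - b‖ = ‖y - b‖ → x ∈ Ω → y ∈ Ω) →
          ∃ κ Λ : ℝ, 0 < κ ∧ ∀ lam : ℝ, Λ ≤ lam →
            ∃ T : Finset ℝ, κ * Real.sqrt lam ≤ T.card ∧ ∀ t ∈ T,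
              Set.Infinite
                {u : EuclideanSpace ℝ (Fin 3) → ℝ |
                  (ContDiffOn ℝ 2 u Ω ∧ ContinuousOn u (closure Ω) ∧
                  (∀ x, x ∉ Ω → u x = 0) ∧
                  ∀ x ∈ Ω,
                    (∑ i : Fin 3, iteratedFDeriv ℝ 2 u x
                        ![EuclideanSpace.single i (1 : ℝ), EuclideanSpace.single i (1 : ℝ)])
                      + u x ^ 5 + lam * u x = 0) ∧
                  ∫ x, u x ^ 6 = t} := by
  rintro c ρ hρ hpos Ω rfl b e he hinv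
  exact Run7.h104.revolution hρ hpos he hinv

end Pool.Agent.Results.MP_d5b3be_an.Revolution
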